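import Pool.Agent.Q287.Nat7

/-!
# A minimal but not tangential `1`-block over `GF(7)` with a modular copoint

The example has rank five and twenty-six points: seven points `(1, t, f t)` off the modular copoint
and the nineteen directions which they determine.
-/

set_option linter.all false
set_option maxRecDepth 100000

namespace Pool.Agent.Results.MP_7230e4_co.MinimalNotTangential

open Set Module Submodule Pool.Agent.Helper236 Pool.Agent.Q287.TBlock Pool.Agent.Q287.Nat7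

/-- `M` is a `k`-block over the finite field `F`: a geometry (finite simple matroid) representable
over `F` whose critical exponent is larger than `k`. -/
def IsBlock (F : Type) [Field F] (k : ℕ) {α : Type} (M : Matroid α) : Prop :=
  M.Finite ∧ IsSimple M ∧ Representable F M ∧ (k : ℕ∞) < critExp M (Nat.card F)

/-- A `k`-block is minimal if deleting any point gives critical exponent at most `k`. -/
def IsMinimalBlock (F : Type) [Field F] (k : ℕ) {α : Type} (M : Matroid α) : Prop :=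
  IsBlock F k M ∧ ∀ x ∈ M.E, critExp (M.delete {x}) (Nat.card F) ≤ k

/-- The vectors `v e`, `e ∈ M.E`, of `F ^ n` represent `M` (which has rank `n`), and the subspace
`U` of rank `n - k` is a tangent of codimension `k` to `Y`: it contains exactly the points of
`Y`. -/
def IsTangentTo (F : Type) [Field F] (k : ℕ) {α : Type} (M : Matroid α) (n : ℕ)
    (v : α → (Fin n → F)) (U : Submodule F (Fin n → F)) (Y : Set α) : Prop :=
  Rep F M v ∧ rk M M.E = n ∧ finrank F U + k = n ∧ ∀ e ∈ M.E, v e ∈ U ↔ e ∈ Y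

/-- A `k`-block is tangential if every nonempty flat of rank at most `rank M - k` has a tangent of
codimension `k` (in some representation). -/
def IsTangentialBlock (F : Type) [Field F] (k : ℕ) {α : Type} (M : Matroid α) : Prop :=
  IsBlock F k M ∧ ∀ Y, M.IsFlat Y → Y.Nonempty → rk M Y + k ≤ rk M M.E →
    ∃ n v U, IsTangentTo F k M n v U Y

/-- the points -/
def ptList : List Q5 := [
  (1, 0, 0, 0, 0), (1, 1, 0, 0, 0), (1, 2, 2, 6, 6), (1, 3, 0, 0, 0), (1, 4, 0, 6, 1),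
  (1, 5, 1, 3, 4), (1, 6, 2, 0, 6), (0, 1, 0, 0, 0), (0, 1, 1, 3, 3), (0, 1, 0, 5, 2),
  (0, 1, 3, 2, 5), (0, 1, 5, 0, 1), (0, 1, 2, 6, 6), (0, 1, 0, 2, 5), (0, 1, 2, 6, 1),
  (0, 1, 6, 0, 4), (0, 1, 5, 1, 1), (0, 1, 6, 0, 1), (0, 1, 2, 6, 4), (0, 1, 0, 2, 0),
  (0, 1, 0, 6, 1), (0, 1, 4, 5, 2), (0, 1, 3, 0, 2), (0, 1, 1, 4, 3), (0, 1, 1, 4, 6),
  (0, 1, 1, 4, 2)]

def P (i : ℕ) : Q5 := ptList.getD i (0, 0, 0, 0, 0)

/-- tangents to the points -/
def tpList : List Q5 := [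
  (0, 1, 0, 0, 0), (1, 6, 0, 0, 0), (1, 1, 0, 1, 2), (1, 2, 0, 0, 0), (1, 1, 6, 5, 0),
  (1, 3, 0, 3, 6), (1, 1, 0, 0, 0), (1, 0, 0, 1, 3), (1, 4, 0, 1, 0), (1, 3, 2, 5, 0),
  (1, 3, 3, 6, 5), (1, 3, 5, 4, 0), (1, 1, 0, 4, 4), (1, 1, 2, 2, 6), (1, 1, 4, 4, 2),
  (1, 1, 4, 6, 6), (1, 5, 0, 2, 0), (1, 1, 2, 0, 1), (1, 4, 1, 4, 3), (1, 1, 0, 3, 1),
  (1, 1, 1, 4, 3), (1, 1, 5, 0, 0), (1, 1, 0, 2, 3), (1, 1, 6, 6, 6), (1, 1, 1, 1, 6),
  (1, 1, 2, 5, 6)]

def TP (i : ℕ) : Q5 := tpList.getD i (0, 0, 0, 0, 0)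

theorem fact_tangent : ∀ i < 26, ev5 (TP i) (P i) = 0 ∧
    ∀ j < 26, j ≠ i → ev5 (TP i) (P j) ≠ 0 := by
  decide +kernel

theorem fact_simple : ∀ i < 26, ∀ j < 26, i ≠ j → ∀ c < 7,
    comb5 c (P i) 0 (P i) 1 (P j) = false := by
  decide +kernel

theorem fact_mod : ∀ i < 7, ∀ j < 7, i ≠ j → ∃ l < 26, 7 ≤ l ∧ ∃ c < 7, c ≠ 0 ∧
    comb5 1 (P i) 6 (P j) c (P l) = true := by
  decide +kernel

theorem fact_coord : ∀ i < 26, if i < 7 then (P i).1 = 1 else (P i).1 = 0 := by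
  decide +kernel

theorem fact_flat : ∀ l < 26, l ≠ 9 → l ≠ 18 → ∀ c < 7, ∀ d < 7,
    comb5 c (P 9) d (P 18) 1 (P l) = false := by
  decide +kernel

/-- the functional `x` does not vanish exactly at the two points -/
def badAt (x : Q5) : Bool :=
  !(ev5 x (P 9) == 0 && ev5 x (P 18) == 0) ||
    (List.range 26).any (fun l => !(l == 9) && !(l == 18) && ev5 x (P l) == 0)

theorem fact_bad' : ((List.range 7).all fun a => (List.range 7).all fun b =>
    (List.range 7).all fun c => (List.range 7).all fun d => (List.range 7).all fun e =>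
      badAt (a, b, c, d, e)) = true := by
  decide +kernel

theorem fact_bad : ∀ a < 7, ∀ b < 7, ∀ c < 7, ∀ d < 7, ∀ e < 7,
    ev5 (a, b, c, d, e) (P 9) = 0 → ev5 (a, b, c, d, e) (P 18) = 0 →
      ∃ l < 26, l ≠ 9 ∧ l ≠ 18 ∧ ev5 (a, b, c, d, e) (P l) = 0 := by
  intro a ha b hb c hc d hd e he h9 h18
  have h := fact_bad'
  simp only [List.all_eq_true, List.mem_range] at h
  have h1 := h a ha b hb c hc d hd e he
  simp only [badAt, h9, h18, Bool.or_eq_true, List.any_eq_true, List.mem_range] at h1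
  rcases h1 with h1 | ⟨l, hl, h2⟩
  · simp at h1
  · simp only [Bool.and_eq_true, Bool.not_eq_true', beq_eq_false_iff_ne, beq_iff_eq] at h2
    exact ⟨l, hl, h2.1.1, h2.1.2, h2.2⟩

/-- the points as vectors -/
def pt (i : Fin 26) : Fin 5 → ZMod 7 := v5 (P i)

/-- the rank five matroid on twenty-six points -/
noncomputable def Mat : Matroid (Fin 26) := linMatroid (ZMod 7) pt univ (Set.toFinite _)

theorem Mat_E : Mat.E = univ := rfl

theorem Mat_finite : Mat.Finite := ⟨Set.toFinite _⟩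

theorem Mat_rep : Rep (ZMod 7) Mat pt := linMatroid_rep _ _ _

theorem not_prop (i j : Fin 26) (hij : i ≠ j) (c : ZMod 7) : c • pt i ≠ pt j := by
  intro h
  obtain ⟨m, hm, rfl⟩ := exists_nat c
  have h1 := fact_simple i i.2 j j.2 (fun h => hij (Fin.ext h)) m hm
  have h2 : comb5 m (P i) 0 (P i) 1 (P j) = true := by
    rw [comb5_iff, Nat.cast_zero, Nat.cast_one, one_smul, zero_smul, add_zero]
    exact h
  rw [h1] at h2
  exact Bool.false_ne_true h2

theorem dot_pt (a : Q5) (i : Fin 26) : dotL (v5 a) (pt i) = 0 ↔ ev5 a (P i) = 0 :=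
  dot5_eq_zero a (P i)

theorem pt_ne_zero (i : Fin 26) : pt i ≠ 0 := by
  intro h
  obtain ⟨j, hj⟩ : ∃ j : Fin 26, j ≠ i := exists_ne i
  have h1 := (fact_tangent j j.2).2 i i.2 (fun h => hj (Fin.ext h.symm))
  apply h1
  rw [← dot_pt, h, map_zero]

theorem Mat_simple : IsSimple Mat := by
  intro e _ f _
  rw [Mat_rep _ (subset_univ _)]
  by_cases hef : e = f
  · subst hef
    simpa using pt_ne_zero e
  · rw [linearIndepOn_pair_iff _ hef (pt_ne_zero e)]
    exact fun c => not_prop e f hef c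

theorem Mat_rank : rk Mat Mat.E = 5 := by
  have := Mat_finite
  rw [Mat_rep.rk_eq Subset.rfl]
  have htop : span (ZMod 7) (pt '' Mat.E) = ⊤ := by
    rw [eq_top_iff]
    intro x _
    have hmem : ∀ i : Fin 26, pt i ∈ span (ZMod 7) (pt '' Mat.E) := fun i =>
      Submodule.subset_span (R := ZMod 7) (mem_image_of_mem pt (mem_univ i))
    have e0 : pt 0 = ![1, 0, 0, 0, 0] := by decide
    have e7 : pt 7 = ![0, 1, 0, 0, 0] := by decide
    have e11 : pt 11 = ![0, 1, 5, 0, 1] := by decide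
    have e13 : pt 13 = ![0, 1, 0, 2, 5] := by decide
    have e19 : pt 19 = ![0, 1, 0, 2, 0] := by decide
    have hx : x = x 0 • pt 0 + (x 1 - 3 * x 2 - 4 * x 3) • pt 7 + (3 * x 2) • pt 11 +
        (3 * x 4 - 2 * x 2) • pt 13 + (2 * x 2 + 4 * x 3 - 3 * x 4) • pt 19 := by
      have h7 : (7 : ZMod 7) = 0 := by decide
      rw [e0, e7, e11, e13, e19]
      ext i
      fin_cases i
      · simp
      · simp
        ring
      · simp
        linear_combination (-2 * x 2) * h7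
      · simp
        linear_combination (-x 3) * h7
      · simp
        linear_combination (x 2 - 2 * x 4) * h7
    rw [hx]
    exact Submodule.add_mem _ (Submodule.add_mem _ (Submodule.add_mem _ (Submodule.add_mem _
      (Submodule.smul_mem _ _ (hmem 0)) (Submodule.smul_mem _ _ (hmem 7)))
      (Submodule.smul_mem _ _ (hmem 11))) (Submodule.smul_mem _ _ (hmem 13)))
      (Submodule.smul_mem _ _ (hmem 19))
  rw [htop, finrank_top, Module.finrank_fin_fun]

theorem coord (i : Fin 26) : pt i 0 = 0 ↔ 7 ≤ (i : ℕ) := by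
  have h := fact_coord i i.2
  have h0 : pt i 0 = ((P i).1 : ZMod 7) := rfl
  rw [h0]
  split_ifs at h with h1
  · rw [h]
    constructor
    · intro h2; exact absurd h2 (by decide)
    · intro h2; omega
  · rw [h]
    constructor
    · intro _; omega
    · intro _; simp

theorem coord_one (i : Fin 26) (h : (i : ℕ) < 7) : pt i 0 = 1 := by
  have h1 := fact_coord i i.2
  rw [if_pos h] at h1
  have h0 : pt i 0 = ((P i).1 : ZMod 7) := rfl
  rw [h0, h1]
  simp

/-- the modular copoint -/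
def H0 : Set (Fin 26) := {i | 7 ≤ (i : ℕ)}

theorem H0_iff (e : Fin 26) : e ∈ H0 ↔ e ∈ Mat.E ∧
    (LinearMap.proj 0 : (Fin 5 → ZMod 7) →ₗ[ZMod 7] ZMod 7) (pt e) = 0 :=
  ⟨fun h => ⟨mem_univ _, (coord e).2 h⟩, fun h => (coord e).1 h.2⟩

theorem meets : ∀ e ∈ Mat.E, ∀ f ∈ Mat.E, e ∉ H0 → f ∉ H0 → e ≠ f → ∃ x ∈ H0, ∃ c : ZMod 7,
    c ≠ 0 ∧ (LinearMap.proj 0 : (Fin 5 → ZMod 7) →ₗ[ZMod 7] ZMod 7) (pt f) • pt e -
      (LinearMap.proj 0 : (Fin 5 → ZMod 7) →ₗ[ZMod 7] ZMod 7) (pt e) • pt f = c • pt x := by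
  intro e _ f _ he hf hef
  have he' : (e : ℕ) < 7 := not_le.1 he
  have hf' : (f : ℕ) < 7 := not_le.1 hf
  obtain ⟨l, hl, hl7, c, hc, hc0, h⟩ := fact_mod e he' f hf' (fun h => hef (Fin.ext h))
  refine ⟨⟨l, hl⟩, hl7, (c : ZMod 7), ?_, ?_⟩
  · intro h0
    have := (nat_eq c 0).1 (by simpa using h0)
    rw [Nat.mod_eq_of_lt hc, Nat.zero_mod] at this
    exact hc0 this
  · rw [comb5_iff] at h
    have e1 : (LinearMap.proj 0 : (Fin 5 → ZMod 7) →ₗ[ZMod 7] ZMod 7) (pt f) = 1 :=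
      coord_one f hf'
    have e2 : (LinearMap.proj 0 : (Fin 5 → ZMod 7) →ₗ[ZMod 7] ZMod 7) (pt e) = 1 :=
      coord_one e he'
    rw [e1, e2]
    have h6 : ((6 : ℕ) : ZMod 7) = -1 := by decide
    rw [h6, Nat.cast_one] at h
    show (1 : ZMod 7) • v5 (P e) - (1 : ZMod 7) • v5 (P f) = (c : ZMod 7) • v5 (P l)
    rw [← h, neg_smul, sub_eq_add_neg]

theorem Mat_modular : IsModularHyperplane Mat H0 := by
  have := Mat_finite
  exact modular_of_meets Mat_rep _ H0_iff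
    ⟨0, mem_univ _, by show ¬ (7 ≤ ((0 : Fin 26) : ℕ)); decide⟩ meets

theorem Mat_block (f : (Fin 5 → ZMod 7) →ₗ[ZMod 7] (Fin 1 → ZMod 7)) :
    ∃ e ∈ Mat.E, f (pt e) = 0 := by
  apply exists_fin_one
  intro g
  have hlt : ∀ t : ZMod 7, t.val < 7 := fun t => ZMod.val_lt t
  refine block_one (M := Mat) (v := pt) (H := H0) _ H0_iff meets
    (fun t : ZMod 7 => ⟨t.val, (hlt t).trans (by norm_num)⟩) ?_ ?_ g
  · intro t
    refine ⟨mem_univ _, ?_⟩
    show ¬ (7 ≤ t.val)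
    exact not_le.2 (hlt t)
  · intro s t h
    have : s.val = t.val := congrArg (fun x : Fin 26 => (x : ℕ)) h
    exact ZMod.val_injective 7 this

/-- the bad line -/
def Y0 : Set (Fin 26) := {9, 18}

theorem Y0_flat : Mat.IsFlat Y0 := by
  rw [Matroid.isFlat_iff_closure_eq]
  apply Subset.antisymm _ (Mat.subset_closure _ (subset_univ _))
  intro l hl
  rw [Y0, Mat_rep.mem_closure_iff (subset_univ _) (mem_univ _), image_pair, mem_span_pair] at hl
  obtain ⟨c, d, hcd⟩ := hl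
  by_contra hn
  have h9 : (l : ℕ) ≠ 9 := fun h => hn (Or.inl (Fin.ext h))
  have h18 : (l : ℕ) ≠ 18 := fun h => hn (Or.inr (Fin.ext h))
  obtain ⟨m, hm, rfl⟩ := exists_nat c
  obtain ⟨m', hm', rfl⟩ := exists_nat d
  have h1 := fact_flat l l.2 h9 h18 m hm m' hm'
  have h2 : comb5 m (P 9) m' (P 18) 1 (P l) = true := by
    rw [comb5_iff, Nat.cast_one, one_smul]
    exact hcd
  rw [h1] at h2
  exact Bool.false_ne_true h2

theorem contract_gt : ¬ critExp (Mat.contract Y0) (Nat.card (ZMod 7)) ≤ (1 : ℕ) := by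
  have := Mat_finite
  intro h
  have h1 : (Mat.contract Y0) = (Mat.contract Y0).delete ∅ := by rw [Matroid.delete_empty]
  rw [h1, minor_critExp_le_iff Mat_rep 1 Y0 ∅ (subset_univ _)] at h
  obtain ⟨f, hf1, hf2⟩ := h
  let g : (Fin 5 → ZMod 7) →ₗ[ZMod 7] ZMod 7 := (LinearMap.proj 0).comp f
  have hg : ∀ x, g x = 0 ↔ f x = 0 := by
    intro x
    constructor
    · intro h0
      ext j
      rw [Subsingleton.elim j 0]
      exact h0
    · intro h0
      show f x 0 = 0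
      rw [h0]
      rfl
  obtain ⟨a, ha1, ha2, ha3, ha4, ha5, ha⟩ := exists_v5 (fun i => g (Pi.single i 1))
  have key : ∀ i : Fin 26, f (pt i) = 0 ↔ ev5 a (P i) = 0 := by
    intro i
    rw [← hg, eq_dot g, ← ha]
    exact dot_pt a i
  obtain ⟨l, hl, hl9, hl18, h0⟩ := fact_bad a.1 ha1 a.2.1 ha2 a.2.2.1 ha3 a.2.2.2.1 ha4
    a.2.2.2.2 ha5 ((key 9).1 (hf1 9 (Or.inl rfl))) ((key 18).1 (hf1 18 (Or.inr rfl)))
  refine hf2 ⟨l, hl⟩ ?_ ((key ⟨l, hl⟩).2 h0)
  refine ⟨⟨mem_univ _, ?_⟩, fun h => h.elim⟩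
  rintro (h | h)
  · exact hl9 (congrArg (fun x : Fin 26 => (x : ℕ)) h)
  · exact hl18 (congrArg (fun x : Fin 26 => (x : ℕ)) h)

theorem no_tangent (n : ℕ) (v : Fin 26 → (Fin n → ZMod 7)) (U : Submodule (ZMod 7) (Fin n → ZMod 7))
    (h : IsTangentTo (ZMod 7) 1 Mat n v U Y0) : False := by
  have := Mat_finite
  obtain ⟨hv, hn, hU, hY⟩ := h
  apply contract_gt
  have h1 : (Mat.contract Y0) = (Mat.contract Y0).delete ∅ := by rw [Matroid.delete_empty]
  rw [h1, minor_critExp_le_iff hv 1 Y0 ∅ (subset_univ _)]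
  have hq : finrank (ZMod 7) ((Fin n → ZMod 7) ⧸ U) = finrank (ZMod 7) (Fin 1 → ZMod 7) := by
    have h2 := U.finrank_quotient_add_finrank
    rw [Module.finrank_fin_fun] at h2
    rw [Module.finrank_fin_fun]
    omega
  let φ := LinearEquiv.ofFinrankEq ((Fin n → ZMod 7) ⧸ U) (Fin 1 → ZMod 7) hq
  have hker : ∀ x, (φ.toLinearMap.comp U.mkQ) x = 0 ↔ x ∈ U := by
    intro x
    show φ (U.mkQ x) = 0 ↔ x ∈ U
    rw [LinearEquiv.map_eq_zero_iff]
    simp
  refine ⟨φ.toLinearMap.comp U.mkQ, ?_, ?_⟩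
  · intro c hc
    rw [hker]
    exact (hY c (mem_univ _)).2 hc
  · intro e he h0
    rw [hker] at h0
    exact he.1.2 ((hY e (mem_univ _)).1 h0)

theorem Mat_minimal (x : Fin 26) : critExp (Mat.delete {x}) (Nat.card (ZMod 7)) ≤ (1 : ℕ) := by
  have := Mat_finite
  have h1 : Mat.delete {x} = (Mat.contract ∅).delete {x} := by rw [Matroid.contract_empty]
  rw [h1, minor_critExp_le_iff Mat_rep 1 ∅ {x} (empty_subset _)]
  refine ⟨LinearMap.pi (fun _ => dotL (v5 (TP x))), by simp, ?_⟩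
  intro e he h0
  have hex : (e : ℕ) ≠ x := fun h => he.2 (Fin.ext h)
  have h2 := (fact_tangent x x.2).2 e e.2 hex
  apply h2
  rw [← dot_pt]
  have := congrFun h0 0
  simpa using this

theorem Mat_isBlock : IsBlock (ZMod 7) 1 Mat := by
  have := Mat_finite
  exact ⟨Mat_finite, Mat_simple, ⟨5, pt, Mat_rep⟩, (lt_critExp_iff Mat_rep 1).2 Mat_block⟩

/-- There is a rank five matroid with a modular copoint which is a minimal but not tangential
`1`-block over `GF(7)`. -/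
theorem result : ∃ M : Matroid (Fin 26), rk M M.E = 5 ∧ (∃ H, IsModularHyperplane M H) ∧
    IsMinimalBlock (ZMod 7) 1 M ∧ ¬ IsTangentialBlock (ZMod 7) 1 M := by
  have := Mat_finite
  refine ⟨Mat, Mat_rank, ⟨_, Mat_modular⟩, ⟨Mat_isBlock, fun x _ => Mat_minimal x⟩, ?_⟩
  rintro ⟨-, h⟩
  have hr : rk Mat Y0 ≤ 2 := by
    rw [Mat_rep.rk_eq (subset_univ _), Y0, image_pair]
    have h1 : ({pt 9, pt 18} : Set (Fin 5 → ZMod 7)) =
        (({pt 9, pt 18} : Finset (Fin 5 → ZMod 7)) : Set (Fin 5 → ZMod 7)) := by simp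
    rw [h1]
    exact (finrank_span_finset_le_card _).trans Finset.card_le_two
  obtain ⟨n, v, U, hU⟩ := h Y0 Y0_flat ⟨9, Or.inl rfl⟩ (by rw [Mat_rank]; omega)
  exact no_tangent n v U hU

end Pool.Agent.Results.MP_7230e4_co.MinimalNotTangential
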